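import Pool.Agent.P.MP_5e2a31_al.Saxl

namespace Pool.Agent.Results.MP_5e2a31_al.Full

open Pool.Agent.P.MP_5e2a31_al

/-- The Saxl-type conjecture in all classical types. Type `A` (Saxl's conjecture): every
irreducible representation of `S_n`, `n = k (k + 1) / 2`, occurs in the tensor square of the
Specht module of the staircase `(k, k - 1, …, 1)`. Types `C` (`d = 1`, rank `k (k + 1)`) and `D`
(`d = 0`, rank `k ^ 2`): every irreducible representation of the Weyl group occurs in
`ρ_F ⊗ ρ_F`, where `ρ_F` is the direct sum of the Specht modules of the members of the family. -/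
theorem result :
    (∀ k : ℕ, SquareContainsAll (weylA (k * (k + 1) / 2))
      fun _ : Unit => specht (k * (k + 1) / 2) (staircase k) ⊥) ∧
    ∀ d k : ℕ, d = 0 ∨ d = 1 → 1 ≤ k → SquareContainsAll (weyl d (k * (k + d)))
      fun p : Family d k => specht (k * (k + d)) p.1.1 p.1.2 := by
  refine ⟨fun k V _ _ U hU => ?_, fun d k hd hk V _ _ U hU => ?_⟩
  all_goals
    have : Nontrivial V := by
      by_contra h
      rw [not_nontrivial_iff_subsingleton] at h
      exact bot_ne_top (α := Subrepresentation U)
        (Subrepresentation.toSubmodule_injective (Subsingleton.elim _ _))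
  · exact saxl k V U
  · exact main d k hd hk V U

end Pool.Agent.Results.MP_5e2a31_al.Full
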