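import Pool.Agent.P.MP_5e2a31_al.L.Top

namespace Pool.Agent.Results.MP_5e2a31_al.Literal

open Pool.Agent.P.MP_5e2a31_al Pool.Agent.P.MP_5e2a31_al.L LieAlgebra.Orthogonal

/-- The Saxl-type conjecture for the classical simple Lie algebras `sl (n + 1)`, `so (2 n + 1)`,
`sp (2 n)`, `so (2 n)`. Let `e` be nilpotent with solvable centraliser, let `F` be the Lusztig
family (two-sided Kazhdan-Lusztig cell) of the Springer representation `σ` of the orbit of `e`
(the module generated by a Joseph polynomial). Suppose that the orbit is self-dual: its Jordan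
type is dominated by its transpose, or `σ ⊗ sgn` lies in `F`. Then every irreducible
representation of `W` occurs in `ρ_F ⊗ ρ_F`. -/
theorem result (n : ℕ) :
    Conj (0 : Matrix (Fin (n + 1)) (Fin (n + 1)) ℂ) id (weylA (n + 1)) n (tr (n + 1)) ∧
    (2 ≤ n → Conj (JB (Fin n) ℂ) (fun ν => Sum.elim 0 (Sum.elim ν (-ν))) (weyl 1 n) n
      fun i => if i = 0 then neg n 1 else tr n (i - 1)) ∧
    (2 ≤ n → Conj (Matrix.J (Fin n) ℂ) (fun ν => Sum.elim ν (-ν)) (weyl 1 n) n
      fun i => if i = 0 then neg n 1 else tr n (i - 1)) ∧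
    (4 ≤ n → Conj (JD (Fin n) ℂ) (fun ν => Sum.elim ν (-ν)) (weyl 0 n) n
      fun i => if i = 0 then neg n 2 * tr n 0 else tr n (i - 1)) :=
  ⟨conjA n, conjB, conjC, conjD⟩

end Pool.Agent.Results.MP_5e2a31_al.Literal
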